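import Pool.Agent.KLev.QFinal
import Pool.Agent.KLev.KGraph

/-!
# Halving lines: `e_n ≥ n * exp ((log n) ^ 0.51)`

`GeneralPosition`, `right`, `edges` and `eMax` are defined in `Pool/Agent/KLev/KGraph.lean`
(namespace `KLev.KGraph`).
-/

namespace Pool.Agent.Results.MP_d308c3_co.BeyondSqrt

open Filter KLev

/-- All large `n` satisfy `e_n ≥ n * exp ((log n) ^ 0.51)`, where `e_n = e_{2n,n-1} / 2`. -/
theorem result : ∀ᶠ n : ℕ in atTop,
    (n : ℝ) * Real.exp (Real.log n ^ (51 / 100 : ℝ)) ≤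
      (KGraph.eMax (2 * n) (n - 1) : ℝ) / 2 := by
  obtain ⟨a, ha⟩ := (finalQ 1).exists_forall_of_atTop
  filter_upwards [eventually_ge_atTop (a + 1)] with n hn
  obtain ⟨N, E, P, hH, hN, hE⟩ := ha n (by omega)
  have h1 := KGraph.eMax_ge hH n hN (by omega)
  have h2 : ((2 * E : ℕ) : ℝ) ≤ KGraph.eMax (2 * n) (n - 1) := by exact_mod_cast h1
  push_cast at h2
  rw [le_div_iff₀ (by norm_num)]
  refine le_trans ?_ h2
  rw [mul_comm _ (2:ℝ)]
  apply mul_le_mul_of_nonneg_left _ (by norm_num)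
  refine le_trans ?_ hE
  rw [one_mul]
  have hn1 : (1 : ℝ) ≤ n := by
    have : 1 ≤ n := by omega
    exact_mod_cast this
  apply mul_le_mul_of_nonneg_left _ (by linarith)
  apply Real.exp_le_exp.mpr
  apply Real.rpow_le_rpow (Real.log_nonneg hn1) _ (by norm_num)
  apply Real.log_le_log (by linarith)
  linarith

end Pool.Agent.Results.MP_d308c3_co.BeyondSqrt
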