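import Pool.Agent.KLev.KGraph

/-!
# Halving lines: `e_n ≥ n * exp (C * sqrt (log n))` for every constant `C`

`GeneralPosition`, `right`, `edges` and `eMax` are defined in `Pool/Agent/KLev/KGraph.lean`
(namespace `KLev.KGraph`).
-/

namespace Pool.Agent.Results.MP_d308c3_co.EveryConstant

open Filter KLev

/-- For every real `C`, all large `n` satisfy `e_n ≥ n * exp (C * sqrt (log n))`, where
`e_n = e_{2n,n-1} / 2`. -/
theorem result : ∀ C : ℝ, ∀ᶠ n : ℕ in atTop,
    (n : ℝ) * Real.exp (C * Real.sqrt (Real.log n)) ≤ (KGraph.eMax (2 * n) (n - 1) : ℝ) / 2 := by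
  intro C
  obtain ⟨a, ha⟩ := (final (max C 0) (le_max_right _ _)).exists_forall_of_atTop
  filter_upwards [eventually_ge_atTop (a + 1)] with n hn
  obtain ⟨N, E, P, hH, hN, hE⟩ := ha n (by omega)
  have h1 := KGraph.eMax_ge hH n hN (by omega)
  have h2 : ((2 * E : ℕ) : ℝ) ≤ KGraph.eMax (2 * n) (n - 1) := by exact_mod_cast h1
  push_cast at h2
  rw [le_div_iff₀ (by norm_num)]
  refine le_trans ?_ h2
  rw [mul_comm _ (2:ℝ)]
  apply mul_le_mul_of_nonneg_left _ (by norm_num)
  refine le_trans ?_ hE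
  have hnm : (n : ℝ) ≤ ((4 * n : ℕ) : ℝ) := by
    have : n ≤ 4 * n := by omega
    exact_mod_cast this
  have hn0 : (0 : ℝ) < n := by
    have : 0 < n := by omega
    exact_mod_cast this
  apply mul_le_mul hnm _ (Real.exp_pos _).le (by positivity)
  apply Real.exp_le_exp.mpr
  have h3 : C * Real.sqrt (Real.log n) ≤ max C 0 * Real.sqrt (Real.log n) :=
    mul_le_mul_of_nonneg_right (le_max_left _ _) (Real.sqrt_nonneg _)
  refine h3.trans (mul_le_mul_of_nonneg_left ?_ (le_max_right _ _))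
  exact Real.sqrt_le_sqrt (Real.log_le_log hn0 hnm)

end Pool.Agent.Results.MP_d308c3_co.EveryConstant
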